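import Mathlib

namespace Pool.Agent.Lib.Pb736bc

/-- The complete split graph `K_u ∨ I_m`: a clique on `u` vertices, an independent set on `m`
vertices, and all edges between them. -/
def splitGraph (u m : ℕ) : SimpleGraph (Fin u ⊕ Fin m) where
  Adj x y := x ≠ y ∧ (x.isLeft = true ∨ y.isLeft = true)
  symm := ⟨fun _ _ h => ⟨h.1.symm, h.2.symm⟩⟩
  loopless := ⟨fun _ h => h.1 rfl⟩

/-- `G` contains no member of `{K_u ∨ I_{Δ+1}, K_{ω+1}}` as a subgraph. -/
def InClass (u Δ ω : ℕ) {V : Type*} (G : SimpleGraph V) : Prop :=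
  (splitGraph u (Δ + 1)).Free G ∧ (⊤ : SimpleGraph (Fin (ω + 1))).Free G

/-- The set of values `𝒩(H,G)` for finite graphs `G` that contain no member of
`{K_u ∨ I_{Δ+1}, K_{ω+1}}` and have exactly `p` cliques of size `u`. -/
def countSet (u Δ ω : ℕ) {W : Type} (H : SimpleGraph W) (p : ℕ) : Set ℕ :=
  {N | ∃ (V : Type) (_ : Fintype V) (G : SimpleGraph V),
    InClass u Δ ω G ∧ (G.cliqueSet u).ncard = p ∧ N = G.copyCount H}

/-- A vertex set `S` of `H` is `u`-closed if it contains every vertex that is adjacent to all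
vertices of some `u`-clique contained in `S`. -/
def UClosed {W : Type} (H : SimpleGraph W) (u : ℕ) (S : Set W) : Prop :=
  ∀ K : Finset W, H.IsNClique u K → (K : Set W) ⊆ S →
    ∀ w : W, (∀ v ∈ K, H.Adj w v) → w ∈ S

/-- `H` is `u`-generated if some `u`-clique `Q` of `H` is contained in no `u`-closed set other than
the whole vertex set. -/
def UGenerated {W : Type} (H : SimpleGraph W) (u : ℕ) : Prop :=
  ∃ Q : Finset W, H.IsNClique u Q ∧
    ∀ S : Set W, UClosed H u S → (Q : Set W) ⊆ S → S = Set.univ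

end Pool.Agent.Lib.Pb736bc
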