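import Mathlib
import Pool.Agent.Lib.Pb736bc.Defs

namespace Pool.Agent.Lib.Pb736bc

open Finset SimpleGraph

/-- bounded common neighbourhoods of `u`-cliques -/
def BddNbr (u Δ : ℕ) {V : Type*} (G : SimpleGraph V) : Prop :=
  ∀ K : Finset V, G.IsNClique u K → ∀ T : Finset V, (∀ v ∈ T, ∀ x ∈ K, G.Adj x v) → T.card ≤ Δ

lemma inClass_iff (u Δ ω : ℕ) {V : Type*} (G : SimpleGraph V) :
    InClass u Δ ω G ↔ BddNbr u Δ G ∧ G.CliqueFree (ω + 1) := by
  classical
  unfold InClass
  have h2 : (⊤ : SimpleGraph (Fin (ω + 1))).Free G ↔ G.CliqueFree (ω + 1) := by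
    rw [← cliqueFree_iff_top_free, Fintype.card_fin]
  rw [h2]
  apply and_congr_left
  intro _
  constructor
  · intro hfree K hK T hT
    by_contra hcon
    push Not at hcon
    apply hfree
    -- build a copy
    obtain ⟨T', hT'T, hT'c⟩ := Finset.exists_subset_card_eq (Nat.succ_le_of_lt hcon)
    have e1 : Fin u ≃ K := (Fintype.equivFinOfCardEq (by simpa using hK.card_eq)).symm
    have e2 : Fin (Δ + 1) ≃ T' := (Fintype.equivFinOfCardEq (by simpa using hT'c)).symm
    let f : Fin u ⊕ Fin (Δ + 1) → V := Sum.elim (fun i => (e1 i : V)) (fun j => (e2 j : V))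
    have hadj : ∀ i j, G.Adj (e1 i : V) (e2 j : V) := fun i j =>
      hT _ (hT'T (e2 j).2) _ (e1 i).2
    refine ⟨⟨⟨f, ?_⟩, ?_⟩⟩
    · rintro (i | i) (j | j) h
      · simp only [splitGraph, ne_eq, Sum.inl.injEq] at h
        exact hK.isClique (e1 i).2 (e1 j).2 (fun h' => h.1 (by
          have : e1 i = e1 j := Subtype.ext h'
          exact e1.injective this))
      · exact hadj i j
      · exact (hadj j i).symm
      · simp [splitGraph] at h
    · rintro (i | i) (j | j) h
      · simp only [RelHom.coeFn_mk, f, Sum.elim_inl] at h
        rw [e1.injective (Subtype.ext h)]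
      · simp only [RelHom.coeFn_mk, f, Sum.elim_inl, Sum.elim_inr] at h
        exact absurd (hadj i j) (by rw [h]; exact G.irrefl)
      · simp only [RelHom.coeFn_mk, f, Sum.elim_inl, Sum.elim_inr] at h
        exact absurd (hadj j i) (by rw [h]; exact G.irrefl)
      · simp only [RelHom.coeFn_mk, f, Sum.elim_inr] at h
        rw [e2.injective (Subtype.ext h)]
  · rintro hb ⟨f⟩
    set K : Finset V := Finset.univ.image (fun i : Fin u => f (Sum.inl i)) with hK
    set T : Finset V := Finset.univ.image (fun j : Fin (Δ + 1) => f (Sum.inr j)) with hT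
    have hKc : G.IsNClique u K := by
      rw [isNClique_iff]
      constructor
      · intro x hx y hy hxy
        rw [hK, Finset.mem_coe, Finset.mem_image] at hx hy
        obtain ⟨i, -, rfl⟩ := hx
        obtain ⟨j, -, rfl⟩ := hy
        apply f.toHom.map_adj
        refine ⟨fun h => hxy (by rw [h]), by simp⟩
      · rw [hK, Finset.card_image_of_injective _ (fun i j h => by
          have := f.injective h
          simpa using this), Finset.card_univ, Fintype.card_fin]
    have hTc : T.card = Δ + 1 := by
      rw [hT, Finset.card_image_of_injective _ (fun i j h => by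
          have := f.injective h
          simpa using this), Finset.card_univ, Fintype.card_fin]
    have := hb K hKc T (by
      intro v hv x hx
      rw [hT, Finset.mem_image] at hv
      rw [hK, Finset.mem_image] at hx
      obtain ⟨j, -, rfl⟩ := hv
      obtain ⟨i, -, rfl⟩ := hx
      apply f.toHom.map_adj
      exact ⟨by simp, by simp⟩)
    omega

/-- labelled copies versus unlabelled copies -/
lemma labelled_eq {V W : Type*} [Fintype V] [Fintype W] (G : SimpleGraph V) (H : SimpleGraph W) :
    G.labelledCopyCount H = Nat.card (H ≃g H) * G.copyCount H := by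
  classical
  have hlab : G.labelledCopyCount H = Fintype.card (Copy H G) := by
    unfold labelledCopyCount
    congr
  rw [hlab, ← Finset.card_univ, Finset.card_eq_sum_card_image (fun f : Copy H G => f.toSubgraph),
    copyCount_eq_card_image_copyToSubgraph]
  rw [Finset.sum_const_nat (m := Nat.card (H ≃g H)), mul_comm]
  intro G' hG'
  rw [Finset.mem_image] at hG'
  obtain ⟨f0, -, hf0⟩ := hG'
  -- the fibre over `G'` is in bijection with `H ≃g H`
  have e0 : H ≃g G'.coe := hf0 ▸ f0.isoToSubgraph
  have hcard : (Finset.univ.filter (fun f : Copy H G => f.toSubgraph = G')).card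
      = Nat.card (H ≃g G'.coe) := by
    rw [← Nat.card_eq_finsetCard]
    symm
    apply Nat.card_eq_of_bijective
      (fun e : H ≃g G'.coe => (⟨G'.coeCopy.comp e.toCopy, by
        rw [Finset.mem_filter]
        refine ⟨Finset.mem_univ _, ?_⟩
        ext x y
        · simp only [Copy.toSubgraph, Subgraph.map_verts, Subgraph.verts_top, Set.image_univ,
            Set.mem_range]
          constructor
          · rintro ⟨a, rfl⟩
            exact (e a).2
          · intro hx
            exact ⟨e.symm ⟨x, hx⟩, by simp [Subgraph.coeCopy]⟩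
        · simp only [Copy.toSubgraph, Subgraph.map_adj, Relation.Map, Subgraph.top_adj]
          constructor
          · rintro ⟨a, b, hab, rfl, rfl⟩
            have : G'.coe.Adj (e a) (e b) := e.map_adj_iff.mpr hab
            exact this
          · intro hxy
            have hx : x ∈ G'.verts := G'.edge_vert hxy
            have hy : y ∈ G'.verts := G'.edge_vert hxy.symm
            refine ⟨e.symm ⟨x, hx⟩, e.symm ⟨y, hy⟩, ?_, by simp [Subgraph.coeCopy], by
              simp [Subgraph.coeCopy]⟩
            rw [← e.map_adj_iff]
            simpa using hxy⟩ :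
        (Finset.univ.filter (fun f : Copy H G => f.toSubgraph = G') : Finset _)))
    constructor
    · intro e e' h
      simp only [Subtype.mk.injEq] at h
      ext a
      have := congrArg (fun f : Copy H G => f a) h
      simpa [Subgraph.coeCopy] using this
    · rintro ⟨f, hf⟩
      rw [Finset.mem_filter] at hf
      obtain ⟨-, hf⟩ := hf
      subst hf
      refine ⟨f.isoToSubgraph, ?_⟩
      apply Subtype.ext
      apply Copy.ext
      intro a
      rfl
  rw [hcard]
  exact Nat.card_congr ⟨fun e => e.trans e0.symm, fun e => e.trans e0, fun e => by ext; simp,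
    fun e => by ext; simp⟩

end Pool.Agent.Lib.Pb736bc
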