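import Mathlib
import Pool.Agent.Lib.Pb736bc.Basic

namespace Pool.Agent.Lib.Pb736bc

open Finset SimpleGraph

section Upper

variable {V : Type*} {W : Type} [Fintype V] [Fintype W] (G : SimpleGraph V) (H : SimpleGraph W)

open Classical in
/-- restrictions of copies of `H` in `G` to a vertex set `A` -/
noncomputable def restr (A : Finset W) : Finset (A → V) :=
  (Finset.univ : Finset (Copy H G)).image (fun φ => fun a : A => φ a)

open Classical in
lemma restr_insert (u Δ : ℕ) (hG : BddNbr u Δ G) (A K : Finset W) (hK : H.IsNClique u K)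
    (hKA : K ⊆ A) (w : W) (hw : ∀ v ∈ K, H.Adj w v) :
    (restr G H (insert w A)).card ≤ Δ * (restr G H A).card := by
  classical
  set res : ({x // x ∈ insert w A} → V) → ({x // x ∈ A} → V) :=
    fun ψ a => ψ ⟨a.1, Finset.mem_insert_of_mem a.2⟩ with hres
  have himg : (restr G H (insert w A)).image res = restr G H A := by
    ext b
    simp only [restr, Finset.mem_image, Finset.mem_univ, true_and]
    constructor
    · rintro ⟨ψ, ⟨φ, rfl⟩, rfl⟩
      exact ⟨φ, rfl⟩
    · rintro ⟨φ, rfl⟩
      exact ⟨_, ⟨φ, rfl⟩, rfl⟩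
  rw [← himg]
  apply Finset.card_le_mul_card_image
  intro b hb
  rw [himg, restr, Finset.mem_image] at hb
  obtain ⟨φ₀, -, hφ₀⟩ := hb
  -- the clique `φ₀(K)`
  have hK' : G.IsNClique u (K.image φ₀) := by
    rw [isNClique_iff]
    constructor
    · intro x hx y hy hxy
      rw [Finset.coe_image, Set.mem_image] at hx hy
      obtain ⟨x', hx', rfl⟩ := hx
      obtain ⟨y', hy', rfl⟩ := hy
      exact φ₀.toHom.map_adj (hK.isClique hx' hy' (fun h => hxy (by rw [h])))
    · have hinj : Function.Injective (fun a => φ₀ a) := φ₀.injective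
      rw [Finset.card_image_of_injective _ hinj, hK.card_eq]
  set F := (restr G H (insert w A)).filter (fun ψ => res ψ = b) with hF
  have hle : F.card ≤ (F.image (fun ψ => ψ ⟨w, Finset.mem_insert_self _ _⟩)).card := by
    rw [Finset.card_image_of_injOn]
    intro ψ hψ ψ' hψ' h
    rw [hF, Finset.mem_coe, Finset.mem_filter] at hψ hψ'
    funext ⟨a, ha⟩
    rcases Finset.mem_insert.mp ha with rfl | ha'
    · exact h
    · have h1 := congrFun hψ.2 ⟨a, ha'⟩
      have h2 := congrFun hψ'.2 ⟨a, ha'⟩
      simp only [hres] at h1 h2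
      rw [h1, h2]
  refine hle.trans (hG _ hK' _ ?_)
  intro v hv x hx
  rw [Finset.mem_image] at hv hx
  obtain ⟨ψ, hψ, rfl⟩ := hv
  obtain ⟨y, hy, rfl⟩ := hx
  rw [hF, Finset.mem_filter, restr, Finset.mem_image] at hψ
  obtain ⟨⟨φ, -, rfl⟩, hψ2⟩ := hψ
  have hyA : y ∈ A := hKA hy
  have h1 : φ y = φ₀ y := by
    have e1 := congrFun hψ2 ⟨y, hyA⟩
    have e2 := congrFun hφ₀ ⟨y, hyA⟩
    simp only [hres] at e1 e2
    rw [e1, e2]
  rw [← h1]
  exact φ.toHom.map_adj (hw y hy).symm

open Classical in
lemma copies_le (u Δ : ℕ) (hG : BddNbr u Δ G) (Q : Finset W)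
    (hgen : ∀ S : Set W, UClosed H u S → (Q : Set W) ⊆ S → S = Set.univ) (n : ℕ) :
    ∀ A : Finset W, Q ⊆ A → (Finset.univ \ A).card = n →
      Fintype.card (Copy H G) ≤ Δ ^ n * (restr G H A).card := by
  classical
  induction n with
  | zero =>
    intro A _ hA
    have hAu : A = Finset.univ := by
      rw [Finset.card_eq_zero, Finset.sdiff_eq_empty_iff_subset] at hA
      exact Finset.univ_subset_iff.mp hA
    subst hAu
    rw [pow_zero, one_mul, restr, Finset.card_image_of_injective, Finset.card_univ]
    intro φ φ' h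
    apply Copy.ext
    intro a
    exact congrFun h ⟨a, Finset.mem_univ a⟩
  | succ n ih =>
    intro A hQA hA
    have hAne : (A : Set W) ≠ Set.univ := by
      intro h
      have : A = Finset.univ := by exact_mod_cast h
      rw [this, Finset.sdiff_self, Finset.card_empty] at hA
      omega
    have hncl : ¬ UClosed H u (A : Set W) := fun h => hAne (hgen _ h (by exact_mod_cast hQA))
    unfold UClosed at hncl
    push Not at hncl
    obtain ⟨K, hK, hKA, w, hw, hwA⟩ := hncl
    have hwA' : w ∉ A := hwA
    have h1 := ih (insert w A) (hQA.trans (Finset.subset_insert _ _)) (by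
      have : Finset.univ \ insert w A = (Finset.univ \ A).erase w := by
        ext x; simp only [Finset.mem_sdiff, Finset.mem_univ, true_and, Finset.mem_insert,
          Finset.mem_erase, not_or]
      rw [this, Finset.card_erase_of_mem (by simp [hwA']), hA]
      rfl)
    have h2 := restr_insert G H u Δ hG A K hK (by exact_mod_cast hKA) w hw
    calc Fintype.card (Copy H G) ≤ Δ ^ n * (restr G H (insert w A)).card := h1
      _ ≤ Δ ^ n * (Δ * (restr G H A).card) := Nat.mul_le_mul_left _ h2
      _ = Δ ^ (n + 1) * (restr G H A).card := by ring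

open Classical in
lemma restr_clique (u : ℕ) (Q : Finset W) (hQ : H.IsNClique u Q) :
    (restr G H Q).card ≤ u.factorial * (G.cliqueSet u).ncard := by
  classical
  have h1 := Finset.card_le_mul_card_image (f := fun ψ : Q → V => Finset.univ.image ψ)
    (restr G H Q) u.factorial (by
    intro K hK
    rw [Finset.mem_image] at hK
    obtain ⟨ψ₀, hψ₀, hK⟩ := hK
    rw [restr, Finset.mem_image] at hψ₀
    obtain ⟨φ₀, -, rfl⟩ := hψ₀
    have hKc : K.card = u := by
      rw [← hK, Finset.card_image_of_injective _ (fun a b h => by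
        have := φ₀.injective h; exact Subtype.ext this), Finset.card_univ, Fintype.card_coe,
        hQ.card_eq]
    -- the fibre is covered by `Q ↪ K`
    have hle : ((restr G H Q).filter (fun ψ => Finset.univ.image ψ = K)).card
        ≤ Fintype.card ({x // x ∈ Q} ↪ {x // x ∈ K}) := by
      rw [← Finset.card_univ]
      refine le_trans (Finset.card_le_card ?_)
        (Finset.card_image_le (s := (Finset.univ : Finset ({x // x ∈ Q} ↪ {x // x ∈ K})))
          (f := fun e => fun a => ((e a : {x // x ∈ K}) : V)))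
      intro ψ hψ
      rw [Finset.mem_filter, restr, Finset.mem_image] at hψ
      obtain ⟨⟨φ, -, rfl⟩, hψ2⟩ := hψ
      rw [Finset.mem_image]
      refine ⟨⟨fun a => ⟨φ a, ?_⟩, ?_⟩, Finset.mem_univ _, rfl⟩
      · rw [← hψ2]
        exact Finset.mem_image.mpr ⟨a, Finset.mem_univ _, rfl⟩
      · intro a b hab
        have : φ a = φ b := congrArg Subtype.val hab
        exact Subtype.ext (φ.injective this)
    refine hle.trans (le_of_eq ?_)
    rw [Fintype.card_embedding_eq, Fintype.card_coe, Fintype.card_coe, hKc, hQ.card_eq,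
      Nat.descFactorial_self])
  refine h1.trans (Nat.mul_le_mul_left _ ?_)
  have h2 : ((restr G H Q).image (fun ψ : Q → V => Finset.univ.image ψ) : Set (Finset V))
      ⊆ G.cliqueSet u := by
    intro K hK
    rw [Finset.mem_coe, Finset.mem_image] at hK
    obtain ⟨ψ₀, hψ₀, rfl⟩ := hK
    rw [restr, Finset.mem_image] at hψ₀
    obtain ⟨φ₀, -, rfl⟩ := hψ₀
    rw [mem_cliqueSet_iff, isNClique_iff]
    constructor
    · intro x hx y hy hxy
      rw [Finset.coe_image, Set.mem_image] at hx hy
      obtain ⟨x', -, rfl⟩ := hx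
      obtain ⟨y', -, rfl⟩ := hy
      apply φ₀.toHom.map_adj (hQ.isClique x'.2 y'.2 (fun h => hxy (by simp only [h])))
    · rw [Finset.card_image_of_injective _ (fun a b h => by
        have := φ₀.injective h; exact Subtype.ext this), Finset.card_univ, Fintype.card_coe,
        hQ.card_eq]
  have h3 := Set.ncard_le_ncard h2 (Set.toFinite _)
  rwa [Set.ncard_coe_finset] at h3

/-- Linear upper bound for `u`-generated graphs. -/
lemma labelled_le (u Δ : ℕ) (hG : BddNbr u Δ G) (hgen : UGenerated H u) :
    G.labelledCopyCount H ≤ Δ ^ (Fintype.card W - u) * (u.factorial * (G.cliqueSet u).ncard) := by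
  classical
  obtain ⟨Q, hQ, hgen⟩ := hgen
  have hlab : G.labelledCopyCount H = Fintype.card (Copy H G) := by
    unfold labelledCopyCount
    congr
  have hcard : (Finset.univ \ Q).card = Fintype.card W - u := by
    rw [Finset.card_sdiff_of_subset (Finset.subset_univ _), Finset.card_univ, hQ.card_eq]
  rw [hlab]
  refine (copies_le G H u Δ hG Q hgen _ Q le_rfl hcard).trans ?_
  exact Nat.mul_le_mul_left _ (restr_clique G H u Q hQ)

end Upper

end Pool.Agent.Lib.Pb736bc
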