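import Mathlib
import Pool.Agent.Lib.Pb736bc.Upper

namespace Pool.Agent.Lib.Pb736bc

open Finset SimpleGraph

section Sum

variable {V₁ V₂ : Type*} {G₁ : SimpleGraph V₁} {G₂ : SimpleGraph V₂}

lemma clique_sum {n : ℕ} (hn : 1 ≤ n) {K : Finset (V₁ ⊕ V₂)} (hK : (G₁ ⊕g G₂).IsNClique n K) :
    (∃ K₁ : Finset V₁, G₁.IsNClique n K₁ ∧ K = K₁.map ⟨Sum.inl, Sum.inl_injective⟩) ∨
    (∃ K₂ : Finset V₂, G₂.IsNClique n K₂ ∧ K = K₂.map ⟨Sum.inr, Sum.inr_injective⟩) := by
  classical
  have hne : K.Nonempty := by
    rw [← Finset.card_pos, hK.card_eq]; omega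
  obtain ⟨x, hx⟩ := hne
  rcases x with x | x
  · left
    have hall : ∀ y ∈ K, ∃ z, y = Sum.inl z := by
      rintro (y | y) hy
      · exact ⟨y, rfl⟩
      · exfalso
        have := hK.isClique hx hy (by simp)
        simp at this
    have hKeq : K = K.toLeft.map ⟨Sum.inl, Sum.inl_injective⟩ := by
      ext y
      simp only [Finset.mem_map, Finset.mem_toLeft, Function.Embedding.coeFn_mk]
      constructor
      · intro hy
        obtain ⟨z, rfl⟩ := hall y hy
        exact ⟨z, hy, rfl⟩
      · rintro ⟨z, hz, rfl⟩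
        exact hz
    refine ⟨K.toLeft, ?_, hKeq⟩
    rw [isNClique_iff]
    constructor
    · intro a ha b hb hab
      have ha' : Sum.inl a ∈ K := by simpa using ha
      have hb' : Sum.inl b ∈ K := by simpa using hb
      have := hK.isClique ha' hb' (by simpa using hab)
      simpa using this
    · have h := congrArg Finset.card hKeq
      rw [Finset.card_map, hK.card_eq] at h
      exact h.symm
  · right
    have hall : ∀ y ∈ K, ∃ z, y = Sum.inr z := by
      rintro (y | y) hy
      · exfalso
        have := hK.isClique hx hy (by simp)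
        simp at this
      · exact ⟨y, rfl⟩
    have hKeq : K = K.toRight.map ⟨Sum.inr, Sum.inr_injective⟩ := by
      ext y
      simp only [Finset.mem_map, Finset.mem_toRight, Function.Embedding.coeFn_mk]
      constructor
      · intro hy
        obtain ⟨z, rfl⟩ := hall y hy
        exact ⟨z, hy, rfl⟩
      · rintro ⟨z, hz, rfl⟩
        exact hz
    refine ⟨K.toRight, ?_, hKeq⟩
    rw [isNClique_iff]
    constructor
    · intro a ha b hb hab
      have ha' : Sum.inr a ∈ K := by simpa using ha
      have hb' : Sum.inr b ∈ K := by simpa using hb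
      have := hK.isClique ha' hb' (by simpa using hab)
      simpa using this
    · have h := congrArg Finset.card hKeq
      rw [Finset.card_map, hK.card_eq] at h
      exact h.symm

lemma clique_inl {n : ℕ} {K : Finset V₁} :
    (G₁ ⊕g G₂).IsNClique n (K.map ⟨Sum.inl, Sum.inl_injective⟩) ↔ G₁.IsNClique n K := by
  rw [isNClique_iff, isNClique_iff, Finset.card_map]
  apply and_congr_left
  intro _
  constructor
  · intro h a ha b hb hab
    have := h (x := Sum.inl a) (by simpa using ha) (y := Sum.inl b) (by simpa using hb)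
      (by simpa using hab)
    simpa using this
  · rintro h x hx y hy hxy
    simp only [Finset.coe_map, Function.Embedding.coeFn_mk, Set.mem_image] at hx hy
    obtain ⟨a, ha, rfl⟩ := hx
    obtain ⟨b, hb, rfl⟩ := hy
    have := h ha hb (fun h => hxy (by rw [h]))
    simpa using this

lemma clique_inr {n : ℕ} {K : Finset V₂} :
    (G₁ ⊕g G₂).IsNClique n (K.map ⟨Sum.inr, Sum.inr_injective⟩) ↔ G₂.IsNClique n K := by
  rw [isNClique_iff, isNClique_iff, Finset.card_map]
  apply and_congr_left
  intro _
  constructor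
  · intro h a ha b hb hab
    have := h (x := Sum.inr a) (by simpa using ha) (y := Sum.inr b) (by simpa using hb)
      (by simpa using hab)
    simpa using this
  · rintro h x hx y hy hxy
    simp only [Finset.coe_map, Function.Embedding.coeFn_mk, Set.mem_image] at hx hy
    obtain ⟨a, ha, rfl⟩ := hx
    obtain ⟨b, hb, rfl⟩ := hy
    have := h ha hb (fun h => hxy (by rw [h]))
    simpa using this

lemma inClass_sum {u Δ ω : ℕ} (hu : 1 ≤ u) (h1 : InClass u Δ ω G₁) (h2 : InClass u Δ ω G₂) :
    InClass u Δ ω (G₁ ⊕g G₂) := by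
  classical
  rw [inClass_iff] at h1 h2 ⊢
  constructor
  · intro K hK T hT
    have hKne : K.Nonempty := by rw [← Finset.card_pos, hK.card_eq]; omega
    rcases clique_sum hu hK with ⟨K₁, hK₁, rfl⟩ | ⟨K₂, hK₂, rfl⟩
    · obtain ⟨x, hx⟩ := hKne
      rw [Finset.mem_map] at hx
      obtain ⟨x, hx, rfl⟩ := hx
      have hall : ∀ y ∈ T, ∃ z, y = Sum.inl z := by
        rintro (y | y) hy
        · exact ⟨y, rfl⟩
        · have := hT _ hy (Sum.inl x) (by simpa using hx)
          simp at this
      have hTeq : T = T.toLeft.map ⟨Sum.inl, Sum.inl_injective⟩ := by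
        ext y
        simp only [Finset.mem_map, Finset.mem_toLeft, Function.Embedding.coeFn_mk]
        constructor
        · intro hy
          obtain ⟨z, rfl⟩ := hall y hy
          exact ⟨z, hy, rfl⟩
        · rintro ⟨z, hz, rfl⟩
          exact hz
      rw [hTeq, Finset.card_map]
      apply h1.1 K₁ hK₁
      intro v hv x hx
      have := hT (Sum.inl v) (by simpa using hv) (Sum.inl x) (by simpa using hx)
      simpa using this
    · obtain ⟨x, hx⟩ := hKne
      rw [Finset.mem_map] at hx
      obtain ⟨x, hx, rfl⟩ := hx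
      have hall : ∀ y ∈ T, ∃ z, y = Sum.inr z := by
        rintro (y | y) hy
        · have := hT _ hy (Sum.inr x) (by simpa using hx)
          simp at this
        · exact ⟨y, rfl⟩
      have hTeq : T = T.toRight.map ⟨Sum.inr, Sum.inr_injective⟩ := by
        ext y
        simp only [Finset.mem_map, Finset.mem_toRight, Function.Embedding.coeFn_mk]
        constructor
        · intro hy
          obtain ⟨z, rfl⟩ := hall y hy
          exact ⟨z, hy, rfl⟩
        · rintro ⟨z, hz, rfl⟩
          exact hz
      rw [hTeq, Finset.card_map]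
      apply h2.1 K₂ hK₂
      intro v hv x hx
      have := hT (Sum.inr v) (by simpa using hv) (Sum.inr x) (by simpa using hx)
      simpa using this
  · intro K hK
    rcases clique_sum (by omega) hK with ⟨K₁, hK₁, -⟩ | ⟨K₂, hK₂, -⟩
    · exact h1.2 K₁ hK₁
    · exact h2.2 K₂ hK₂

lemma cliqueSet_sum [Finite V₁] [Finite V₂] {u : ℕ} (hu : 1 ≤ u) :
    ((G₁ ⊕g G₂).cliqueSet u).ncard = (G₁.cliqueSet u).ncard + (G₂.cliqueSet u).ncard := by
  classical
  have h : (G₁ ⊕g G₂).cliqueSet u
      = (fun K : Finset V₁ => K.map ⟨Sum.inl, Sum.inl_injective⟩) '' G₁.cliqueSet u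
        ∪ (fun K : Finset V₂ => K.map ⟨Sum.inr, Sum.inr_injective⟩) '' G₂.cliqueSet u := by
    ext K
    simp only [mem_cliqueSet_iff, Set.mem_union, Set.mem_image]
    constructor
    · intro hK
      rcases clique_sum hu hK with ⟨K₁, hK₁, rfl⟩ | ⟨K₂, hK₂, rfl⟩
      · exact Or.inl ⟨K₁, hK₁, rfl⟩
      · exact Or.inr ⟨K₂, hK₂, rfl⟩
    · rintro (⟨K₁, hK₁, rfl⟩ | ⟨K₂, hK₂, rfl⟩)
      · exact clique_inl.mpr hK₁
      · exact clique_inr.mpr hK₂
  have hfin : Finite (Finset (V₁ ⊕ V₂)) := inferInstance
  rw [h, Set.ncard_union_eq]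
  · rw [Set.ncard_image_of_injective _ (Finset.map_injective _),
      Set.ncard_image_of_injective _ (Finset.map_injective _)]
  · rw [Set.disjoint_left]
    rintro K ⟨K₁, hK₁, rfl⟩ ⟨K₂, hK₂, h12⟩
    have hK₁' : G₁.IsNClique u K₁ := hK₁
    have hne : K₁.Nonempty := by rw [← Finset.card_pos, hK₁'.card_eq]; omega
    obtain ⟨x, hx⟩ := hne
    have : Sum.inl x ∈ K₂.map ⟨Sum.inr, Sum.inr_injective⟩ := by
      simp only at h12
      rw [h12]; simpa using hx
    simp at this

lemma labelled_sum [Fintype V₁] [Fintype V₂] {W : Type*} [Fintype W] [Nonempty W]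
    (H : SimpleGraph W) :
    G₁.labelledCopyCount H + G₂.labelledCopyCount H ≤ (G₁ ⊕g G₂).labelledCopyCount H := by
  classical
  have e1 : G₁.labelledCopyCount H = Fintype.card (Copy H G₁) :=
    Fintype.card_congr (Equiv.refl _)
  have e2 : G₂.labelledCopyCount H = Fintype.card (Copy H G₂) :=
    Fintype.card_congr (Equiv.refl _)
  have e3 : (G₁ ⊕g G₂).labelledCopyCount H = Fintype.card (Copy H (G₁ ⊕g G₂)) := by
    unfold labelledCopyCount
    convert rfl
  rw [e1, e2, e3, ← Fintype.card_sum]
  apply Fintype.card_le_of_injective (fun f : Copy H G₁ ⊕ Copy H G₂ =>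
    (Sum.elim (fun f => (Embedding.sumInl (G := G₁) (H := G₂)).toCopy.comp f)
      (fun f => (Embedding.sumInr (G := G₁) (H := G₂)).toCopy.comp f) f : Copy H (G₁ ⊕g G₂)))
  rintro (f | f) (g | g) h
  · congr 1
    apply Copy.ext
    intro a
    have := congrArg (fun φ : Copy H (G₁ ⊕g G₂) => φ a) h
    simpa using this
  · exfalso
    have := congrArg (fun φ : Copy H (G₁ ⊕g G₂) => φ (Classical.arbitrary W)) h
    simp at this
  · exfalso
    have := congrArg (fun φ : Copy H (G₁ ⊕g G₂) => φ (Classical.arbitrary W)) h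
    simp at this
  · congr 1
    apply Copy.ext
    intro a
    have := congrArg (fun φ : Copy H (G₁ ⊕g G₂) => φ a) h
    simpa using this

lemma copyCount_sum [Fintype V₁] [Fintype V₂] {W : Type*} [Fintype W] [Nonempty W]
    (H : SimpleGraph W) :
    G₁.copyCount H + G₂.copyCount H ≤ (G₁ ⊕g G₂).copyCount H := by
  have h := labelled_sum (G₁ := G₁) (G₂ := G₂) H
  rw [labelled_eq, labelled_eq, labelled_eq, ← Nat.mul_add] at h
  have hpos : 0 < Nat.card (H ≃g H) := by
    have : Finite (H ≃g H) := by
      apply Finite.of_injective (fun e : H ≃g H => (e : W → W))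
      intro e e' h
      exact DFunLike.coe_injective h
    have : Nonempty (H ≃g H) := ⟨Iso.refl⟩
    exact Nat.card_pos
  exact Nat.le_of_mul_le_mul_left h hpos

end Sum

/-- `K_u` belongs to the class -/
lemma inClass_top {u Δ ω : ℕ} (huω : u ≤ ω) :
    InClass u Δ ω (⊤ : SimpleGraph (Fin u)) := by
  classical
  rw [inClass_iff]
  constructor
  · intro K hK T hT
    have hKu : K = Finset.univ := by
      rw [← Finset.card_eq_iff_eq_univ, hK.card_eq, Fintype.card_fin]
    have : T = ∅ := by
      rw [Finset.eq_empty_iff_forall_notMem]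
      intro v hv
      have := hT v hv v (by rw [hKu]; exact Finset.mem_univ _)
      simp at this
    rw [this]; simp
  · intro K hK
    have h1 := hK.card_eq
    have h2 := Finset.card_le_univ K
    rw [h1, Fintype.card_fin] at h2
    omega

lemma cliqueSet_top (u : ℕ) : ((⊤ : SimpleGraph (Fin u)).cliqueSet u).ncard = 1 := by
  classical
  rw [Set.ncard_eq_one]
  refine ⟨Finset.univ, ?_⟩
  ext K
  rw [mem_cliqueSet_iff, Set.mem_singleton_iff, isNClique_iff]
  constructor
  · rintro ⟨-, h⟩
    rw [← Finset.card_eq_iff_eq_univ, h, Fintype.card_fin]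
  · rintro rfl
    refine ⟨?_, by simp⟩
    intro a _ b _ hab
    simpa using hab

end Pool.Agent.Lib.Pb736bc
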