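import Mathlib
import Pool.Agent.Lib.Pb736bc.Sum

namespace Pool.Agent.Lib.Pb736bc

open Finset SimpleGraph Filter Topology

variable {W : Type} {H : SimpleGraph W} {u Δ ω : ℕ}

lemma countSet_add [Fintype W] [Nonempty W] (hu : 1 ≤ u) {p q N₁ N₂ : ℕ}
    (h1 : N₁ ∈ countSet u Δ ω H p) (h2 : N₂ ∈ countSet u Δ ω H q) :
    ∃ N ∈ countSet u Δ ω H (p + q), N₁ + N₂ ≤ N := by
  obtain ⟨V₁, _, G₁, hG₁, hp, rfl⟩ := h1
  obtain ⟨V₂, _, G₂, hG₂, hq, rfl⟩ := h2
  refine ⟨_, ⟨V₁ ⊕ V₂, inferInstance, G₁ ⊕g G₂, inClass_sum hu hG₁ hG₂, ?_, rfl⟩,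
    copyCount_sum H⟩
  rw [cliqueSet_sum hu, hp, hq]

lemma countSet_zero_nonempty (hu : 1 ≤ u) : (countSet u Δ ω H 0).Nonempty := by
  classical
  refine ⟨_, Empty, inferInstance, (⊥ : SimpleGraph Empty), ?_, ?_, rfl⟩
  · rw [inClass_iff]
    constructor
    · intro K hK T hT
      have : T = ∅ := Finset.eq_empty_of_isEmpty T
      rw [this]; simp
    · intro K hK
      have : K = ∅ := Finset.eq_empty_of_isEmpty K
      rw [this] at hK
      have := hK.card_eq
      simp at this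
  · rw [Set.ncard_eq_zero (Set.toFinite _), Set.eq_empty_iff_forall_notMem]
    intro K hK
    rw [mem_cliqueSet_iff] at hK
    have hK' : K = ∅ := Finset.eq_empty_of_isEmpty K
    have := hK.card_eq
    rw [hK'] at this
    simp at this
    omega

lemma countSet_one_nonempty (huω : u ≤ ω) : (countSet u Δ ω H 1).Nonempty :=
  ⟨_, Fin u, inferInstance, ⊤, inClass_top huω, cliqueSet_top u, rfl⟩

lemma countSet_mono [Fintype W] [Nonempty W] (hu : 1 ≤ u) (huω : u ≤ ω) {p q N : ℕ} (hpq : p ≤ q)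
    (h : N ∈ countSet u Δ ω H p) : ∃ N' ∈ countSet u Δ ω H q, N ≤ N' := by
  induction q, hpq using Nat.le_induction with
  | base => exact ⟨N, h, le_rfl⟩
  | succ q _ ih =>
    obtain ⟨N', hN', hle⟩ := ih
    obtain ⟨N₁, hN₁⟩ := countSet_one_nonempty (H := H) (Δ := Δ) huω
    obtain ⟨N₂, hN₂, h2⟩ := countSet_add hu hN' hN₁
    exact ⟨N₂, hN₂, by omega⟩

lemma countSet_nonempty [Fintype W] [Nonempty W] (hu : 1 ≤ u) (huω : u ≤ ω) (p : ℕ) :
    (countSet u Δ ω H p).Nonempty := by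
  obtain ⟨N, hN⟩ := countSet_zero_nonempty (H := H) (Δ := Δ) (ω := ω) hu
  obtain ⟨N', hN', -⟩ := countSet_mono hu huω (Nat.zero_le p) hN
  exact ⟨N', hN'⟩

lemma aut_pos [Finite W] : 0 < Nat.card (H ≃g H) := by
  have : Finite (H ≃g H) := by
    apply Finite.of_injective (fun e : H ≃g H => (e : W → W))
    intro e e' h
    exact DFunLike.coe_injective h
  have : Nonempty (H ≃g H) := ⟨Iso.refl⟩
  exact Nat.card_pos

lemma countSet_bdd [Fintype W] (hgen : UGenerated H u) (p : ℕ) :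
    ∀ N ∈ countSet u Δ ω H p, N ≤ Δ ^ (Fintype.card W - u) * u.factorial * p := by
  rintro N ⟨V, _, G, hG, hp, rfl⟩
  rw [inClass_iff] at hG
  have h := labelled_le G H u Δ hG.1 hgen
  rw [labelled_eq, hp] at h
  calc G.copyCount H ≤ Nat.card (H ≃g H) * G.copyCount H := Nat.le_mul_of_pos_left _ aut_pos
    _ ≤ Δ ^ (Fintype.card W - u) * (u.factorial * p) := h
    _ = Δ ^ (Fintype.card W - u) * u.factorial * p := by ring

/-- For `u`-generated members `H` of the class the limit exists and is positive. -/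
theorem limit_exists [Fintype W] [Nonempty W] (hu : 1 ≤ u) (huω : u ≤ ω) (hH : InClass u Δ ω H)
    (hgen : UGenerated H u) :
    ∃ (ex : ℕ → ℕ) (P : ℝ), 0 < P ∧ (∀ p, IsGreatest (countSet u Δ ω H p) (ex p)) ∧
      Tendsto (fun p => (ex p : ℝ) / p) atTop (𝓝 P) ∧ ∀ p, (ex p : ℝ) ≤ P * p := by
  classical
  have hbdd : ∀ p, BddAbove (countSet u Δ ω H p) := fun p =>
    ⟨_, fun N hN => countSet_bdd hgen p N hN⟩
  set ex : ℕ → ℕ := fun p => sSup (countSet u Δ ω H p) with hex
  have hgr : ∀ p, IsGreatest (countSet u Δ ω H p) (ex p) := fun p =>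
    ⟨Nat.sSup_mem (countSet_nonempty hu huω p) (hbdd p), fun N hN => le_csSup (hbdd p) hN⟩
  have hsup : ∀ p q, ex p + ex q ≤ ex (p + q) := by
    intro p q
    obtain ⟨N, hN, h⟩ := countSet_add hu (hgr p).1 (hgr q).1
    exact h.trans ((hgr (p + q)).2 hN)
  set a : ℕ → ℝ := fun p => -(ex p : ℝ) with ha
  have hsub : Subadditive a := by
    intro p q
    have := hsup p q
    have h' : ((ex p : ℝ) + ex q) ≤ ex (p + q) := by exact_mod_cast this
    simp only [ha]
    linarith
  set C : ℝ := (Δ : ℝ) ^ (Fintype.card W - u) * (u.factorial : ℝ) with hC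
  have hexC : ∀ p, (ex p : ℝ) ≤ C * p := by
    intro p
    have := countSet_bdd hgen p _ (hgr p).1
    have h' : (ex p : ℝ) ≤ ((Δ ^ (Fintype.card W - u) * u.factorial * p : ℕ) : ℝ) := by
      exact_mod_cast this
    push_cast at h'
    exact h'
  have hbelow : BddBelow (Set.range fun n => a n / n) := by
    refine ⟨-C, ?_⟩
    rintro _ ⟨n, rfl⟩
    simp only [ha]
    rcases Nat.eq_zero_or_pos n with rfl | hn
    · simp
      positivity
    · have hn' : (0 : ℝ) < n := by exact_mod_cast hn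
      rw [le_div_iff₀ hn']
      have := hexC n
      linarith
  have htend := hsub.tendsto_lim hbelow
  obtain ⟨Q, hQ, -⟩ := hgen
  -- positivity
  set k0 : ℕ := (H.cliqueSet u).ncard with hk0
  have hk0pos : 0 < k0 := by
    rw [hk0, Set.ncard_pos (Set.toFinite _)]
    exact ⟨Q, hQ⟩
  have hexk0 : 1 ≤ ex k0 := by
    have hmem : H.copyCount H ∈ countSet u Δ ω H k0 := ⟨W, inferInstance, H, hH, rfl, rfl⟩
    have h1 := (hgr k0).2 hmem
    have h2 : 0 < H.copyCount H := copyCount_pos.mpr (IsContained.refl H)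
    omega
  have hlim : hsub.lim ≤ a k0 / k0 := hsub.lim_le_div hbelow hk0pos.ne'
  have hPpos : 0 < -hsub.lim := by
    have h1 : a k0 / k0 < 0 := by
      apply div_neg_of_neg_of_pos
      · simp only [ha]
        have : (1 : ℝ) ≤ ex k0 := by exact_mod_cast hexk0
        linarith
      · exact_mod_cast hk0pos
    linarith
  refine ⟨ex, -hsub.lim, hPpos, hgr, ?_, ?_⟩
  · have := htend.neg
    refine this.congr (fun n => ?_)
    simp only [ha]
    ring
  · intro p
    rcases Nat.eq_zero_or_pos p with rfl | hp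
    · have := hexC 0
      simp at this ⊢
      exact this
    · have h1 := hsub.lim_le_div hbelow hp.ne'
      have hp' : (0 : ℝ) < p := by exact_mod_cast hp
      rw [le_div_iff₀ hp'] at h1
      simp only [ha] at h1
      linarith

end Pool.Agent.Lib.Pb736bc
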