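import Mathlib
import Pool.Agent.Lib.Pb736bc.Limit

namespace Pool.Agent.Lib.Pb736bc

open Finset SimpleGraph Filter Topology

section Product

variable {W : Type} (H : SimpleGraph W) (u : ℕ)

/-- index type: the `u`-cliques of `H` -/
abbrev Idx := {Q : Finset W // H.IsNClique u Q}

/-- the `u`-closure -/
def ucl (Q : Finset W) : Set W := {w | ∀ S : Set W, UClosed H u S → (Q : Set W) ⊆ S → w ∈ S}

lemma ucl_closed (Q : Finset W) : UClosed H u (ucl H u Q) := by
  intro K hK hKS w hw S hS hQS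
  exact hS K hK (fun x hx => hKS hx S hS hQS) w hw

lemma subset_ucl (Q : Finset W) : (Q : Set W) ⊆ ucl H u Q := fun _ hx _ _ hQS => hQS hx

lemma ucl_ne_univ (hng : ¬ UGenerated H u) (Q : Finset W) (hQ : H.IsNClique u Q) :
    ucl H u Q ≠ Set.univ := by
  intro h
  apply hng
  refine ⟨Q, hQ, fun S hS hQS => ?_⟩
  rw [Set.eq_univ_iff_forall]
  intro w
  have : w ∈ ucl H u Q := by rw [h]; trivial
  exact this S hS hQS

/-- vertices of the product graph -/
abbrev PV (t : ℕ) : Type := (w : W) × ({i : Idx H u // w ∉ ucl H u i.1} → Fin t)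

/-- the product graph -/
def PG (t : ℕ) : SimpleGraph (PV H u t) where
  Adj x y := H.Adj x.1 y.1 ∧ ∀ (i : Idx H u) (h : x.1 ∉ ucl H u i.1) (h' : y.1 ∉ ucl H u i.1),
    x.2 ⟨i, h⟩ = y.2 ⟨i, h'⟩
  symm := ⟨fun _ _ h => ⟨h.1.symm, fun i h1 h2 => (h.2 i h2 h1).symm⟩⟩
  loopless := ⟨fun _ h => H.irrefl h.1⟩

variable {H u} {t : ℕ}

open Classical in
lemma proj_clique {n : ℕ} {K : Finset (PV H u t)} (hK : (PG H u t).IsNClique n K) :
    H.IsNClique n (K.image Sigma.fst) := by
  rw [isNClique_iff]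
  have hinj : Set.InjOn Sigma.fst (K : Set (PV H u t)) := by
    intro x hx y hy hxy
    by_contra hne
    have := (hK.isClique hx hy hne).1
    rw [hxy] at this
    exact H.irrefl this
  constructor
  · intro a ha b hb hab
    rw [Finset.coe_image, Set.mem_image] at ha hb
    obtain ⟨x, hx, rfl⟩ := ha
    obtain ⟨y, hy, rfl⟩ := hb
    exact (hK.isClique hx hy (fun h => hab (by rw [h]))).1
  · rw [Finset.card_image_of_injOn hinj, hK.card_eq]

lemma PG_bdd {Δ : ℕ} (hH : BddNbr u Δ H) : BddNbr u Δ (PG H u t) := by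
  classical
  intro K hK T hT
  have hKH := proj_clique hK
  have hinj : Set.InjOn Sigma.fst (T : Set (PV H u t)) := by
    rintro ⟨w, f⟩ hx ⟨w', f'⟩ hy hxy
    simp only at hxy
    subst hxy
    congr 1
    funext ⟨i, hi⟩
    -- there is a vertex of `K` outside `ucl i`
    have hex : ∃ x ∈ K, x.1 ∉ ucl H u i.1 := by
      by_contra hcon
      push Not at hcon
      apply hi
      apply ucl_closed H u i.1 _ hKH
      · intro a ha
        rw [Finset.coe_image, Set.mem_image] at ha
        obtain ⟨x, hx, rfl⟩ := ha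
        exact hcon x hx
      · intro v hv
        rw [Finset.mem_image] at hv
        obtain ⟨x, hxK, rfl⟩ := hv
        exact (hT _ hx x hxK).1.symm
    obtain ⟨x, hxK, hxi⟩ := hex
    have h1 := (hT _ hx x hxK).2 i hxi hi
    have h2 := (hT _ hy x hxK).2 i hxi hi
    exact h1.symm.trans h2
  rw [← Finset.card_image_of_injOn hinj]
  apply hH _ hKH
  intro v hv a ha
  rw [Finset.mem_image] at hv ha
  obtain ⟨y, hy, rfl⟩ := hv
  obtain ⟨x, hx, rfl⟩ := ha
  exact (hT y hy x hx).1

lemma PG_cliqueFree {n : ℕ} (hH : H.CliqueFree n) : (PG H u t).CliqueFree n := by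
  classical
  intro K hK
  exact hH _ (proj_clique hK)

variable [Fintype W]

noncomputable instance : Fintype (Idx H u) := by classical infer_instance
noncomputable instance : Fintype (PV H u t) := by classical infer_instance

lemma PG_copies (hng : ¬ UGenerated H u) :
    t ^ (Fintype.card (Idx H u)) ≤ (PG H u t).labelledCopyCount H := by
  classical
  have e1 : (PG H u t).labelledCopyCount H = Fintype.card (Copy H (PG H u t)) := by
    unfold labelledCopyCount
    convert rfl
  rw [e1]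
  have e2 : t ^ (Fintype.card (Idx H u)) = Fintype.card (Idx H u → Fin t) := by
    rw [Fintype.card_fun, Fintype.card_fin]
  rw [e2]
  apply Fintype.card_le_of_injective (fun g : Idx H u → Fin t =>
    (⟨⟨fun w => ⟨w, fun i => g i.1⟩, fun {a b} hab => ⟨hab, fun i h1 h2 => rfl⟩⟩,
      fun a b hab => congrArg Sigma.fst hab⟩ : Copy H (PG H u t)))
  intro g g' h
  funext i
  have hne := ucl_ne_univ H u hng i.1 i.2
  rw [Ne, Set.eq_univ_iff_forall] at hne
  push Not at hne
  obtain ⟨w, hw⟩ := hne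
  have h1 := congrArg (fun φ : Copy H (PG H u t) => φ w) h
  have h2 : (⟨w, fun i => g i.1⟩ : PV H u t) = ⟨w, fun i => g' i.1⟩ := h1
  have h3 := eq_of_heq (Sigma.mk.inj h2).2
  exact congrFun h3 ⟨i, hw⟩

lemma PG_cliques (ht : 0 < t) :
    ((PG H u t).cliqueSet u).ncard
      ≤ Fintype.card (Idx H u) * t ^ (Fintype.card (Idx H u) - 1) := by
  classical
  -- target type
  have ecard : Fintype.card ((i₀ : Idx H u) × ({i : Idx H u // i ≠ i₀} → Fin t))
      = Fintype.card (Idx H u) * t ^ (Fintype.card (Idx H u) - 1) := by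
    rw [Fintype.card_sigma]
    simp only [Fintype.card_fun, Fintype.card_fin, Fintype.card_subtype_compl,
      Fintype.card_unique, Finset.sum_const, Finset.card_univ, smul_eq_mul]
  rw [← ecard, ← Nat.card_coe_set_eq, ← Nat.card_eq_fintype_card]
  -- the map
  set val : Finset (PV H u t) → Idx H u → Fin t := fun K i =>
    if h : ∃ x ∈ K, x.1 ∉ ucl H u i.1 then h.choose.2 ⟨i, h.choose_spec.2⟩ else ⟨0, ht⟩ with hval
  have hvalx : ∀ K : Finset (PV H u t), (PG H u t).IsNClique u K → ∀ x ∈ K, ∀ (i : Idx H u)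
      (hi : x.1 ∉ ucl H u i.1), x.2 ⟨i, hi⟩ = val K i := by
    intro K hK x hx i hi
    have hex : ∃ x ∈ K, x.1 ∉ ucl H u i.1 := ⟨x, hx, hi⟩
    simp only [hval, dif_pos hex]
    by_cases hxx : x = hex.choose
    · have key : ∀ (y : PV H u t) (hy : y.1 ∉ ucl H u i.1), x = y → x.2 ⟨i, hi⟩ = y.2 ⟨i, hy⟩ := by
        rintro y hy rfl; rfl
      exact key _ _ hxx
    · exact (hK.isClique hx hex.choose_spec.1 hxx).2 i hi hex.choose_spec.2
  apply Nat.card_le_card_of_injective (fun K : (PG H u t).cliqueSet u =>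
    (⟨⟨K.1.image Sigma.fst, proj_clique K.2⟩, fun i => val K.1 i.1⟩ :
      (i₀ : Idx H u) × ({i : Idx H u // i ≠ i₀} → Fin t)))
  rintro ⟨K, hK⟩ ⟨K', hK'⟩ h
  apply Subtype.ext
  simp only at h ⊢
  rw [Sigma.mk.injEq] at h
  obtain ⟨h1, h2⟩ := h
  rw [mem_cliqueSet_iff] at hK hK'
  have himg : K.image Sigma.fst = K'.image Sigma.fst := congrArg Subtype.val h1
  have hvals : ∀ i : Idx H u, i.1 ≠ K.image Sigma.fst → val K i = val K' i := by
    intro i hi
    have key : ∀ (a b : Idx H u) (f : {i : Idx H u // i ≠ a} → Fin t)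
        (g : {i : Idx H u // i ≠ b} → Fin t), a = b → HEq f g → ∀ (ha : i ≠ a) (hb : i ≠ b),
        f ⟨i, ha⟩ = g ⟨i, hb⟩ := by
      rintro a b f g rfl hfg ha hb
      rw [eq_of_heq hfg]
    have := key _ _ _ _ h1 h2 (fun h => hi (congrArg Subtype.val h))
      (fun h => hi (by rw [himg]; exact congrArg Subtype.val h))
    exact this
  have hsub : K ⊆ K' := by
    intro x hx
    have hx1 : x.1 ∈ K'.image Sigma.fst := by
      rw [← himg]; exact Finset.mem_image_of_mem _ hx
    rw [Finset.mem_image] at hx1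
    obtain ⟨y, hy, hyx⟩ := hx1
    have : x = y := by
      rcases x with ⟨w, f⟩
      rcases y with ⟨w', f'⟩
      simp only at hyx
      subst hyx
      congr 1
      funext ⟨i, hi⟩
      have hne : i.1 ≠ K.image Sigma.fst := by
        intro h
        apply hi
        apply subset_ucl H u i.1
        rw [h]
        exact Finset.mem_coe.mpr (Finset.mem_image_of_mem _ hx)
      exact (hvalx K hK _ hx i hi).trans ((hvals i hne).trans (hvalx K' hK' _ hy i hi).symm)
    rw [this]; exact hy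
  exact Finset.eq_of_subset_of_card_le hsub (by rw [hK.card_eq, hK'.card_eq])

/-- Values from the product graph. -/
lemma product_values {Δ ω : ℕ} (hH : InClass u Δ ω H) (hng : ¬ UGenerated H u) (ht : 0 < t) :
    ∃ p N : ℕ, p ≤ Fintype.card (Idx H u) * t ^ (Fintype.card (Idx H u) - 1) ∧
      N ∈ countSet u Δ ω H p ∧ t ^ (Fintype.card (Idx H u)) ≤ Nat.card (H ≃g H) * N := by
  rw [inClass_iff] at hH
  refine ⟨((PG H u t).cliqueSet u).ncard, (PG H u t).copyCount H, PG_cliques ht,
    ⟨PV H u t, inferInstance, PG H u t, ?_, rfl, rfl⟩, ?_⟩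
  · rw [inClass_iff]
    exact ⟨PG_bdd hH.1, PG_cliqueFree hH.2⟩
  · rw [← labelled_eq]
    exact PG_copies hng

end Product

end Pool.Agent.Lib.Pb736bc
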