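import Mathlib
import Pool.Agent.Lib.Pb736bc.Product

namespace Pool.Agent.Lib.Pb736bc

open Finset SimpleGraph Filter Topology

variable {W : Type} [Fintype W] {H : SimpleGraph W} {u Δ ω : ℕ}

theorem superlinear (hu : 1 ≤ u) (hK : (⊤ : SimpleGraph (Fin u)) ⊑ H) (hH : InClass u Δ ω H)
    (hng : ¬ UGenerated H u) :
    ∃ α : ℝ, 1 < α ∧ ∃ c : ℝ, 0 < c ∧ ∀ᶠ p : ℕ in atTop,
      ∃ N ∈ countSet u Δ ω H p, c * (p : ℝ) ^ α ≤ N := by
  classical
  -- nonemptiness of the index set
  obtain ⟨Q, hQ⟩ : ∃ Q : Finset W, H.IsNClique u Q := by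
    by_contra hcon
    push Not at hcon
    have h1 : H.CliqueFree u := hcon
    have h2 := (cliqueFree_iff_top_free (β := Fin u) (G := H)).mp (by rwa [Fintype.card_fin])
    exact h2 hK
  have huω : u ≤ ω := by
    by_contra hcon
    push Not at hcon
    have h1 := (inClass_iff u Δ ω H).mp hH
    exact (h1.2.mono (by omega : ω + 1 ≤ u)) Q hQ
  have hWne : Nonempty W := by
    have : Q.Nonempty := by rw [← Finset.card_pos, hQ.card_eq]; omega
    exact ⟨this.choose⟩
  set L := Fintype.card (Idx H u) with hL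
  have hL1 : 1 ≤ L := by
    rw [hL]
    exact Fintype.card_pos_iff.mpr ⟨⟨Q, hQ⟩⟩
  set A := Nat.card (H ≃g H) with hA
  have hA1 : 0 < A := aut_pos
  have hA1' : (0 : ℝ) < A := by exact_mod_cast hA1
  rcases Nat.lt_or_ge 1 L with hL2 | hL2
  · -- at least two `u`-cliques
    have hLm : (0 : ℝ) < ((L - 1 : ℕ) : ℝ) := by
      have : 0 < L - 1 := by omega
      exact_mod_cast this
    have hLr : (0 : ℝ) < (L : ℝ) := by exact_mod_cast hL1
    have hLm' : ((L - 1 : ℕ) : ℝ) < L := by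
      have : L - 1 < L := by omega
      exact_mod_cast this
    refine ⟨(L : ℝ) / ((L - 1 : ℕ) : ℝ), ?_,
      (1 / 2) ^ L * (1 / (L : ℝ)) ^ ((L : ℝ) / ((L - 1 : ℕ) : ℝ)) / A, by positivity, ?_⟩
    · rw [lt_div_iff₀ hLm]; linarith
    · filter_upwards [eventually_ge_atTop L] with p hp
      have hp' : (L : ℝ) ≤ p := by exact_mod_cast hp
      have hp0 : (0 : ℝ) < p := lt_of_lt_of_le hLr hp'
      set x : ℝ := ((p : ℝ) / L) ^ (1 / ((L - 1 : ℕ) : ℝ)) with hx
      have hx1 : 1 ≤ x := by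
        apply Real.one_le_rpow
        · rw [le_div_iff₀ hLr]; linarith
        · positivity
      have hx0 : 0 ≤ x := by linarith
      set t := ⌊x⌋₊ with ht
      have ht1 : 1 ≤ t := Nat.le_floor (by simpa using hx1)
      have htx : (t : ℝ) ≤ x := Nat.floor_le hx0
      have htx' : x / 2 ≤ t := by
        have h1 := Nat.lt_floor_add_one x
        have h2 : (1 : ℝ) ≤ t := by exact_mod_cast ht1
        rw [← ht] at h1
        linarith
      obtain ⟨q, N, hq, hN, hcopies⟩ := product_values (t := t) hH hng ht1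
      have hqp : q ≤ p := by
        have h1 : (q : ℝ) ≤ (L : ℝ) * (t : ℝ) ^ (L - 1) := by exact_mod_cast hq
        have h2 : (t : ℝ) ^ (L - 1) ≤ x ^ (L - 1) := pow_le_pow_left₀ (by positivity) htx _
        have h3 : x ^ (L - 1) = (p : ℝ) / L := by
          rw [hx, ← Real.rpow_natCast, ← Real.rpow_mul (by positivity)]
          rw [one_div, inv_mul_cancel₀ hLm.ne', Real.rpow_one]
        have h4 : (L : ℝ) * ((p : ℝ) / L) = p := by field_simp
        have h5 : (q : ℝ) ≤ p := by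
          calc (q : ℝ) ≤ (L : ℝ) * (t : ℝ) ^ (L - 1) := h1
            _ ≤ (L : ℝ) * x ^ (L - 1) := mul_le_mul_of_nonneg_left h2 hLr.le
            _ = p := by rw [h3, h4]
        exact_mod_cast h5
      obtain ⟨N', hN', hNN'⟩ := countSet_mono hu huω hqp hN
      refine ⟨N', hN', ?_⟩
      have hcop : (t : ℝ) ^ L ≤ A * N := by exact_mod_cast hcopies
      have hNN : (N : ℝ) ≤ N' := by exact_mod_cast hNN'
      have h6 : (x / 2) ^ L ≤ (t : ℝ) ^ L := pow_le_pow_left₀ (by positivity) htx' _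
      have h7 : (x / 2) ^ L = (1 / 2) ^ L * (1 / (L : ℝ)) ^ ((L : ℝ) / ((L - 1 : ℕ) : ℝ))
          * (p : ℝ) ^ ((L : ℝ) / ((L - 1 : ℕ) : ℝ)) := by
        have h8 : x ^ L = (1 / (L : ℝ)) ^ ((L : ℝ) / ((L - 1 : ℕ) : ℝ))
            * (p : ℝ) ^ ((L : ℝ) / ((L - 1 : ℕ) : ℝ)) := by
          rw [hx, ← Real.rpow_natCast, ← Real.rpow_mul (by positivity),
            ← Real.mul_rpow (by positivity) hp0.le]
          congr 1
          · ring
          · ring
        have h9 : x / 2 = (1 / 2) * x := by ring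
        rw [h9, mul_pow, h8, mul_assoc]
      rw [div_mul_eq_mul_div, div_le_iff₀ hA1', ← h7]
      calc (x / 2) ^ L ≤ (t : ℝ) ^ L := h6
        _ ≤ A * N := hcop
        _ ≤ A * N' := mul_le_mul_of_nonneg_left hNN hA1'.le
        _ = N' * A := by ring
  · -- exactly one `u`-clique: unbounded already for `p = 1`
    have hLeq : L = 1 := by omega
    refine ⟨2, by norm_num, 1, by norm_num, ?_⟩
    filter_upwards [eventually_ge_atTop 1] with p hp
    have htpos : 0 < A * p ^ 2 := by positivity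
    obtain ⟨q, N, hq, hN, hcopies⟩ := product_values (t := A * p ^ 2) hH hng htpos
    rw [← hL, hLeq] at hq hcopies
    simp only [Nat.sub_self, pow_zero, mul_one, pow_one] at hq hcopies
    obtain ⟨N', hN', hNN'⟩ := countSet_mono hu huω (by omega : q ≤ p) hN
    refine ⟨N', hN', ?_⟩
    have h1 : p ^ 2 ≤ N := Nat.le_of_mul_le_mul_left hcopies hA1
    have h2 : ((p ^ 2 : ℕ) : ℝ) ≤ N' := by exact_mod_cast h1.trans hNN'
    rw [one_mul]
    push_cast at h2
    rw [show (2 : ℝ) = ((2 : ℕ) : ℝ) by norm_num, Real.rpow_natCast]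
    exact h2

end Pool.Agent.Lib.Pb736bc
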